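import Pool.Agent.Lib_MP_2af48a_lc.AboveDefs
import Pool.Agent.Lib_MP_2af48a_lc.OdoUni
import Pool.Agent.Lib_MP_2af48a_lc.NotFinal

/-!
# SC is not contained in NC for circuits with at most `log n - O(log log n)` NOT gates

For `r : ℕ → ℕ` let `SC r` and `NC r` be the classes of functions computed by layered circuits of
polynomial size and polylogarithmic width, respectively by circuits of polynomial size and
polylogarithmic depth, over the basis AND, OR, NOT (fan-in at most two), which contain at most
`r n` NOT gates for inputs of length `n`; negated variables are not free.  In particular `SC 0` and
`NC 0` are the monotone classes.  By a theorem of Markov and Fischer, `⌈log (n + 1)⌉` NOT gates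
suffice to compute every function of NC.

(1) We show that for all `k` and `b` there is one function `f` in monotone SC such that every
circuit of size at most `2 ^ ((log n) ^ k)` for `f` with at most `log n - c log log n` NOT gates has
depth at least `n ^ b`, where `c = 60 (b + k) + 600`.  Hence SC is not contained in NC when at most
`log n - 600 log log n` NOT gates are allowed.

In fact it suffices to count the NOT gates above some set `P` of variables, that is, those which are
reached by a path from a variable in `P`; all other NOT gates are free.  If there are `t` of them
and `P` has at least `2 ^ t * (log n) ^ c` elements, then the depth is at least `n ^ b`.  For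
`t = 0` this says that in every circuit of size `2 ^ ((log n) ^ k)` and depth less than `n ^ b` for
`f` all but `(log n) ^ c` variables have a NOT gate above them.

(2) On the other hand, if `n < 2 ^ t * c`, then every circuit of size `s` and depth `d` for a
monotone function of `n` variables can be replaced by a circuit with at most `t` NOT gates, size at
most `2 ^ t * (n + 2) ^ (c + 27) * s` and depth at most `c * d + 12 log n + 3 t + 28`.  For example,
`log n - a log log n` NOT gates suffice to compute every monotone function of NC with size
`2 ^ ((log n) ^ (a + 2))` and polylogarithmic depth.  So for circuits of quasi-polynomial size the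
number of NOT gates in (1) is optimal up to a constant factor in front of `log log n`, and the
assertion of (1) with some `c ≤ k - 3` would imply that SC is not contained in NC.

(3) For circuits of polynomial size (2) shows that for every constant `e` each monotone function of
NC can be computed in NC with at most `log n - e` NOT gates, and we show the same for SC.
Hence, for each `e`, SC is not contained in NC if and only if some monotone function is contained in
`SC r` and not in `NC r` for `r n = log n - e`, and NC is not contained in SC if and only if some
monotone function is contained in `NC r` and not in `SC r`.

Proof idea.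

(1a) A function `F` of `m = (log n) ^ O(1)` variables in monotone SC which has no small monotone
circuits of depth less than `n ^ b` (files `OdoDefs`, ..., `OdoLower`, `OdoProg`).  Consider an
odometer with `K = log n / log log n` digits of size at most `p = (log n) ^ O(1)`.  A state of level
`l` is a row of `w` nodes; one step of level `l + 1` is a complete run of level `l`, whose result is
used by the next row of level `l + 1`.  Thus `F` is computed with `O(K)` rows of memory (for each
bit of a row the run of the lower levels is repeated), which gives polynomial size and
polylogarithmic width.  Alice chooses a value for each node and Bob a label for each value of each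
node, namely one, or zero with two pointers which say which nodes of the next row of the same level
and of the last row of the level below are zero.  An adversary who always remembers at most `W` rows
can be led to a violation only after about `p ^ K` steps, since he reveals the pointer which belongs
to the return from the lower level only at the end of the run; a lifting argument turns this into a
lower bound for the depth of circuits of size `2 ^ W`.

(1b) The NOT gates are removed by taking the disjunction of many copies of `F` on disjoint sets of
variables (file `CopiesProof`), and the set `P` is arbitrary because the variables of the copies are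
selected by addresses which are part of the input (files `AboveSel`, `AboveUni`): for a suitable
choice of the addresses all copies use only variables in `P`, all other variables are constant and
the copies which are not needed are constant.

(2) The NOT gates are pushed to the variables, which gives a monotone function `R` with
`R (x, ¬ x) = f x`.  Let `G 0 x` say that `x` has at least `K` ones, and let
`G (j + 1) x = R (x, y)`, where `y i = G j (x with x i := 1)`.  If `f` is monotone, then `G c` is
equal to `f` on all `x` with at least `K - c` and less than `K` ones (file `NotRail`).  The right
one of `2 ^ t` such windows is found with `t` NOT gates by binary search (file `NotWin`).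
Threshold functions have monotone circuits of logarithmic depth (Valiant, file `NotVal`).

(3) The same is done with straight-line programs with few registers (files `SCProg`, `SCLoop`,
`SCWin`, `SCFinal`).  A function `f` not in NC (or not in SC) can be replaced by the monotone
function which is `f x` on the inputs `(x, ¬ x)` and is determined by the number of ones on all
other inputs which contain a pair `00` or `11` (files `NotMono`, `NotMono2`).
-/

open Filter

namespace Pool.Agent.Results.MP_2af48a_lc.DepthAbove

open FewNegations

/-- Some functions in monotone SC have no circuits of small size and small depth with few NOT gates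
above many variables; for `log n - e` NOT gates the question is whether SC and NC are different. -/
theorem result (k b : ℕ) :
    (∃ f : (n : ℕ) → (Fin n → Bool) → Bool, SC (fun _ => 0) f ∧
      (∀ r : ℕ → ℕ, (∀ᶠ n in atTop, 2 ^ r n * Nat.log 2 n ^ (60 * (b + k) + 600) ≤ n) →
        ¬ NC r f) ∧
      (∀ N r : ℕ → ℕ, (∀ᶠ n in atTop, 2 ^ r n * Nat.log 2 n ^ (60 * (b + k) + 600) ≤ N n) →
        ¬ NCAbove N r f) ∧
      ∃ n0 : ℕ, ∀ n ≥ n0, ∀ C : Circuit n, (∀ x, C.eval x = f n x) →
        C.size ≤ 2 ^ (Nat.log 2 n) ^ k → ∀ P : Finset (Fin n),
        2 ^ C.negationsAbove P * Nat.log 2 n ^ (60 * (b + k) + 600) ≤ P.card →
        n ^ b ≤ C.depth) ∧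
    (∀ n c t : ℕ, n < 2 ^ t * c → ∀ C : Circuit n, Monotone C.eval →
      ∃ D : Circuit n, (∀ x, D.eval x = C.eval x) ∧ D.negations ≤ t ∧
        D.size ≤ 2 ^ t * (n + 2) ^ (c + 27) * C.size ∧
        D.depth ≤ c * C.depth + 12 * Nat.log 2 n + 3 * t + 28) ∧
    ∀ e : ℕ,
      ((∃ f : (n : ℕ) → (Fin n → Bool) → Bool, (∃ r, SC r f) ∧ ∀ r, ¬ NC r f) ↔
        ∃ f : (n : ℕ) → (Fin n → Bool) → Bool, (∀ n, Monotone (f n)) ∧
          SC (fun n => Nat.log 2 n - e) f ∧ ¬ NC (fun n => Nat.log 2 n - e) f) ∧
      ((∃ f : (n : ℕ) → (Fin n → Bool) → Bool, (∃ r, NC r f) ∧ ∀ r, ¬ SC r f) ↔
        ∃ f : (n : ℕ) → (Fin n → Bool) → Bool, (∀ n, Monotone (f n)) ∧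
          NC (fun n => Nat.log 2 n - e) f ∧ ¬ SC (fun n => Nat.log 2 n - e) f) :=
  ⟨depth_uni' k b, fun n c t h C hC => few_nots n c t h C hC,
    fun e => ⟨SC_NC_nots e, NC_SC_nots e⟩⟩

end Pool.Agent.Results.MP_2af48a_lc.DepthAbove
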