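import Pool.Agent.Lib_MP_2af48a_lc.HazDefs
import Pool.Agent.Lib_MP_2af48a_lc.HazWidth
import Pool.Agent.Lib_MP_2af48a_lc.HazSmallSC

/-!
# SC and NC are incomparable for circuits without certain hazards

A circuit with AND, OR and NOT gates is evaluated in Kleene's three-valued logic, where the third
value `none` stands for an unstable signal.  The circuit is called hazard-free on a set `P` of
variables if the following holds: if all variables outside `P` are stable and the (Boolean) value
of the circuit does not depend on the values of the unstable variables, then the output is stable.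
The circuits may contain any number of NOT gates, and every function has a circuit without hazards.

Let `N : ℕ → ℕ` with `N n ≤ n`, and let `SCHazardFree N` and `NCHazardFree N` be the classes of
functions computed by layered circuits of polynomial size and polylogarithmic width, respectively
by circuits of polynomial size and polylogarithmic depth, which are hazard-free on some set of
`N n` variables.

* If `N n = O(log n)`, then the condition on the hazards is no restriction: the two classes are
  (non-uniform) SC and NC, and whether they are different is the open question.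

* If `N n ≥ (log n) ^ a` for every `a` and all large `n`, then the two classes are incomparable.
  More precisely, for all `k` and `b` there are functions `f` and `g` such that

  - `f` is computed by layered circuits without NOT gates (hence without hazards) of polynomial
    size and polylogarithmic width, but every circuit for `f` of size at most `2 ^ ((log n) ^ k)`
    which is hazard-free on some set of `(log n) ^ (60 (b + k) + 780)` variables has depth at least
    `n ^ b`;

  - `g` is computed by circuits without NOT gates of polynomial size and polylogarithmic depth, but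
    every layered circuit of width `w` for `g` which is hazard-free on some set of
    `(w + 1) ^ 4 * (log n) ^ (50 k + 454)` variables has size greater than `2 ^ ((log n) ^ k)`.

Proof idea.  Let the variables in `P` with value `false` be unstable.  For a circuit `C` without
hazards on `P` computing a monotone function `f` we have `f x = 1` if and only if the three-valued
value of `C` is `true`.  If every gate is replaced by two gates, which say whether its three-valued
value is `true` and whether it is `false`, we obtain a circuit for `f` such that no NOT gate is
above `P` (files `HazTrans`, `HazLayered`).  Such circuits are treated in the hand-ins `DepthAbove`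
and `WidthTradeoff` (files `OdoUni`, `WidthUni`).  Conversely, one variable `x_i` can be treated by
replacing a circuit `D` by `(x_i ∧ D[x_i := 1]) ∨ (¬ x_i ∧ D[x_i := 0]) ∨ (D[x_i := 0] ∧ D[x_i := 1])`
(files `HazSmall`, `HazSmallSC`).
-/

open Filter

namespace Pool.Agent.Results.MP_2af48a_lc.HazardFree

open FewNegations

/-- SC and NC are incomparable for circuits without hazards on superpolylogarithmically many
variables, while for logarithmically many variables this condition is no restriction. -/
theorem result (k b : ℕ) :
    (∃ f : (n : ℕ) → (Fin n → Bool) → Bool,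
      SC (fun _ => 0) f ∧ SCHazardFree (fun n => n) f ∧
      (∀ N : ℕ → ℕ, (∀ᶠ n in atTop, Nat.log 2 n ^ (60 * (b + k) + 780) ≤ N n) →
        ¬ NCHazardFree N f) ∧
      ∃ n₀ : ℕ, ∀ n ≥ n₀, ∀ C : Circuit n, (∀ x, C.eval x = f n x) →
        C.size ≤ 2 ^ (Nat.log 2 n) ^ k → ∀ P : Finset (Fin n), C.HazardFreeOn P →
        Nat.log 2 n ^ (60 * (b + k) + 780) ≤ P.card → n ^ b ≤ C.depth) ∧
    (∃ f : (n : ℕ) → (Fin n → Bool) → Bool,
      NC (fun _ => 0) f ∧ NCHazardFree (fun n => n) f ∧
      (∀ N : ℕ → ℕ, (∀ a : ℕ, ∀ᶠ n in atTop, Nat.log 2 n ^ a ≤ N n) → ¬ SCHazardFree N f) ∧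
      ∀ n ≥ 16, ∀ C : Layered n, (∀ x, C.eval x = f n x) → ∀ P : Finset (Fin n),
        C.HazardFreeOn P → (C.maxWidth + 1) ^ 4 * Nat.log 2 n ^ (50 * k + 454) ≤ P.card →
        2 ^ (Nat.log 2 n) ^ k < C.size) ∧
    (∀ N : ℕ → ℕ, (∀ n, N n ≤ n) → (∃ e : ℕ, ∀ n, N n ≤ e * Nat.log 2 n + e) →
      ∀ f : (n : ℕ) → (Fin n → Bool) → Bool,
        (SCHazardFree N f ↔ ∃ r : ℕ → ℕ, SC r f) ∧ (NCHazardFree N f ↔ ∃ r : ℕ → ℕ, NC r f)) := by
  refine ⟨?_, ?_, ?_⟩
  · obtain ⟨f, h1, h2, h3⟩ := hazard_depth k b
    exact ⟨f, h1, h1.hazardFree, h2, h3⟩
  · obtain ⟨f, h1, h2, h3⟩ := hazard_width k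
    exact ⟨f, h1, h1.hazardFree, h2, h3⟩
  · rintro N hN ⟨e, he⟩ f
    exact ⟨SCHazardFree_iff hN he, NCHazardFree_iff hN he⟩

end Pool.Agent.Results.MP_2af48a_lc.HazardFree
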