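import Pool.Agent.Lib_MP_2af48a_lc.FewNegDefs
import Pool.Agent.Lib_MP_2af48a_lc.StDefs
import Pool.Agent.Lib_MP_2af48a_lc.UTradeoff

/-!
# st-connectivity with few NOT gates: monotone NC, but not SC, even for undirected graphs

Directed st-connectivity on a graph with `N = ⌊√n⌋` vertices, given by its adjacency matrix, is
computed by monotone circuits of polynomial size and polylogarithmic depth.  We show that it is not
computed by layered circuits of polynomial size and polylogarithmic width with at most `r n` NOT
gates (fan-in two AND, OR, NOT; negated variables are not free) as long as
`(log N - r n) / √(log N)` tends to infinity, and give a trade-off between size, width and number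
of NOT gates: with at most `(1 / 2 - ε) log n = (1 - 2 ε) log √n` NOT gates and width at most
`n ^ (ε / 51)` the size is at least `n ^ (ε ^ 2 / 501 * log n)`.

Both bounds hold already for circuits which are only required to be correct on undirected graphs
(symmetric adjacency matrices).  By a theorem of Reingold undirected st-connectivity is computable
in logarithmic space, so that without the bound on the number of NOT gates it is in SC.

Proof idea.  A graph with `N` vertices contains `N / M` graphs with `M` vertices which only share
the source and the sink.  If there are more than `2 ^ t * (t + 1)` of them, then a layered circuit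
with `t` NOT gates for large graphs gives a monotone layered circuit for small graphs, see the
hand-in `DepthFewNeg`.  For monotone layered circuits of small width, Alice holds a path through
`2 ^ Ω(log n)` layers of vertices, Bob a cut; one follows a time interval of the circuit and divides
it into `n ^ c` parts in every round, fixing a few more vertices of the path and their sides.  Every
newly fixed vertex at most halves the gap between the known vertices on the side of the source and
those on the side of the sink, so that the process can go on for `Ω(log n)` rounds (file `UGraph`,
based on the file `StConnectivity`).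
-/

open Filter

namespace Pool.Agent.Results.MP_2af48a_lc.StConnFewNeg

open FewNegations

/-- st-connectivity is in monotone NC, but not in SC with few NOT gates, even when restricted to
undirected graphs. -/
theorem result :
    NC (fun _ => 0) stconn ∧
    (∀ r : ℕ → ℕ,
      Tendsto (fun n : ℕ => (Real.logb 2 n / 2 - r n) / Real.sqrt (Real.logb 2 n)) atTop atTop →
      ∀ g : (n : ℕ) → (Fin n → Bool) → Bool, (∀ n x, Symm n x → g n x = stconn n x) → ¬ SC r g) ∧
    (∀ (n : ℕ) (ε : ℝ), 8000 ≤ ε * Real.sqrt (Real.logb 2 n) →
      ∀ C : Layered n, (∀ x, Symm n x → C.eval x = stconn n x) →
        (C.negations : ℝ) ≤ (1 / 2 - ε) * Real.logb 2 n →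
        (C.maxWidth : ℝ) ≤ (n : ℝ) ^ (ε / 51) →
        (n : ℝ) ^ (ε ^ 2 / 501 * Real.logb 2 n) ≤ C.size) :=
  ⟨st_NC0, und_not_SC_r, und_tradeoff_neg⟩

end Pool.Agent.Results.MP_2af48a_lc.StConnFewNeg
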