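import Pool.Agent.Lib_MP_2af48a_lc.AboveDefs
import Pool.Agent.Lib_MP_2af48a_lc.TradeMain

/-!
# Width, size, depth and NOT gates: NC and narrow circuits

For `r : ℕ → ℕ` let `SC r` and `NC r` be the classes of functions computed by layered circuits of
polynomial size and polylogarithmic width, respectively by circuits of polynomial size and
polylogarithmic depth, over the basis AND, OR, NOT (fan-in at most two), which contain at most
`r n` NOT gates for inputs of length `n`; negated variables are not free.  By a theorem of Markov
and Fischer, `⌈log (n + 1)⌉` NOT gates suffice to compute every function of NC.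

Let `d n` grow faster than `log n`, and at most polylogarithmically.  We construct one function `f`
computed by monotone circuits of polynomial size and depth at most `d n` such that every layered
circuit for `f` has almost `log n` NOT gates, or large width, or large size.  Let a layered circuit
of width `w` compute `f` on inputs of length `n`, let `P` be a set of variables and let `t` be the
number of NOT gates above `P`, that is, of those which are reached by a path from a variable in `P`;
all other NOT gates are free.  If `k ≥ 1`, `50 (k + 1) log n ≤ d n` and
`(w + 1) ^ (4 + 4 / k) * 2 ^ t * (log n) ^ c ≤ |P|`, where `c = 150 a + 500`, then the size of the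
circuit is greater than `2 ^ (d n / (3 k + 3))`.  (In the theorem both sides of the inequality are
raised to the power `k`.)

* For fixed `k` this is optimal up to constant factors in the exponents: a function computed by
  monotone circuits of depth `d` is computed by monotone layered circuits of width `O(d)` and
  size `2 ^ O(d)`.  In particular depth `d n` and polynomial size is not contained in `SC r` if
  `d n / log n` and `log n - r n - C log log n` tend to infinity for every `C`.

* For `d n = (log n) ^ (K + 2)` and `k = log n` the condition becomes
  `(w + 1) ^ 4 * 2 ^ t * (log n) ^ O(1) ≤ |P|`, and the size is greater than `2 ^ ((log n) ^ K)` for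
  large `n`.  In particular NC without NOT gates is not contained in `SC r`, and for `t = 0`, in
  every layered circuit of size `2 ^ ((log n) ^ K)` and width `w` for `f` all but
  `(w + 1) ^ 4 * (log n) ^ O(1)` variables have a NOT gate above them.

Proof idea.

(1) A function with `m` variables (files `NarrowUpper`, `NarrowLower`, `TradeHard`): iterated
AND-OR reachability through `R + 3` layers.  A layer has `2 R + 1` columns, each consisting of
`16 * 4 ^ B` nodes, where `2 ^ (4 B)` is essentially `m`, and the depth is about `2 B R`.  For the
lower bound one follows a time interval of a monotone layered circuit of width less than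
`2 ^ (B - e)` and divides it into `2 ^ e` parts in each of the `R` rounds; Alice's input is fixed in
a few positions in every round, and an adversary chooses Bob's input there.  Hence the size is
greater than `2 ^ (e R)`.  The function does not depend on `e`, which is about `B / (k + 1)`.

(2) The NOT gates are removed by taking the disjunction of more than `2 ^ t * (t + 1)` copies of
this function on disjoint sets of variables, and `P` is arbitrary because the variables of the
copies are selected by addresses which are part of the input (files `CopiesProof`, `AboveUni`).

(3) The number `m = 2 ^ i` which has to be used depends on the width of the circuit, hence the first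
`log n + 1` variables select the number `i` (file `SwitchUni`).
-/

open Filter

namespace Pool.Agent.Results.MP_2af48a_lc.WidthTradeoff

open FewNegations

/-- Some functions computed by monotone circuits of polynomial size and depth at most `d n` have no
narrow circuits of small size with few NOT gates above many variables. -/
theorem result (a : ℕ) (d : ℕ → ℕ) (h1 : ∀ m : ℕ, ∀ᶠ n in atTop, m * Nat.log 2 n ≤ d n)
    (h2 : ∀ᶠ n in atTop, d n ≤ (Nat.log 2 n) ^ a) :
    ∃ f : (n : ℕ) → (Fin n → Bool) → Bool,
      (∃ C : (n : ℕ) → Circuit n, (∀ n x, (C n).eval x = f n x) ∧
        PolyBounded (fun n => (C n).size) ∧ (∀ᶠ n in atTop, (C n).depth ≤ d n) ∧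
        ∀ n, (C n).negations = 0) ∧
      (∀ r : ℕ → ℕ, (∀ b : ℕ, ∀ᶠ n in atTop, 2 ^ r n * Nat.log 2 n ^ b ≤ n) → ¬ SC r f) ∧
      (∀ N r : ℕ → ℕ, (∀ b : ℕ, ∀ᶠ n in atTop, 2 ^ r n * Nat.log 2 n ^ b ≤ N n) →
        ¬ SCAbove N r f) ∧
      ∃ n₀ : ℕ, ∀ n ≥ n₀, ∀ k ≥ 1, 50 * (k + 1) * Nat.log 2 n ≤ d n →
        ∀ C : Layered n, (∀ x, C.eval x = f n x) → ∀ P : Finset (Fin n),
        ((C.maxWidth + 1) ^ 4) ^ (k + 1) *
          (2 ^ C.negationsAbove P * Nat.log 2 n ^ (150 * a + 500)) ^ k ≤ P.card ^ k →
        2 ^ (d n / (3 * (k + 1))) < C.size :=
  trade_uni a d h1 h2

end Pool.Agent.Results.MP_2af48a_lc.WidthTradeoff
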